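import Mathlib
import Pool.Agent.W41.Sieve

/-! The fundamental lemma for one progression and the primes not dividing the modulus
(after `Pool.Agent.W41.fund`). -/

set_option autoImplicit false

namespace Pool.Agent.W333.MH

open Finset

open Pool.Agent.W41 (JJ JJ_lt JJ_pow JJ_le V V_pos)

open Classical in
theorem core : ∃ C0 K0 : ℕ, 1 ≤ C0 ∧ 1 ≤ K0 ∧ ∀ b : ℕ, C0 ≤ b → ∀ y : ℕ, 2 ≤ y → ∀ q : ℕ, 1 ≤ q →
    ∀ (c X : ℕ) (P : Finset ℕ), (∀ p ∈ P, p.Prime ∧ p ≤ y ∧ ¬ p ∣ q) →
    |((((Icc 1 X).filter (fun n : ℕ => n ≡ c [MOD q] ∧ ∀ p ∈ P, n % p ≠ 0)).card : ℕ) : ℝ) -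
        (X : ℝ) / q * V P| ≤
      (1 / 2 : ℝ) ^ b * ((X : ℝ) / q * V P) + ((JJ y : ℝ) + 2) * ((y : ℝ) ^ (2 * (C0 * b)) * K0) := by
  obtain ⟨C0, hC0, hFL⟩ := Pool.Agent.H20R2.fLem 1
  set z0 := C0 + 1 with hz0
  set K0 : ℕ := ∏ p ∈ (Icc 1 z0).filter Nat.Prime, p with hK0
  have hK01 : 1 ≤ K0 := Nat.pos_of_ne_zero (prod_ne_zero_iff.2 fun p hp => (mem_filter.1 hp).2.ne_zero)
  refine ⟨C0, K0, hC0, hK01, fun b hbC y hy q hq c X P hP => ?_⟩
  have hPp : ∀ p ∈ P, p.Prime := fun p hp => (hP p hp).1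
  set J := JJ y with hJ
  set Y : ℕ := 2 ^ 2 ^ J with hY
  have hyY : y < Y := JJ_lt y
  have hYy : Y ≤ y ^ 2 := JJ_le y (by omega)
  set D : ℕ := Y ^ (C0 * b) with hD
  set P0 : Finset ℕ := P.filter (fun p => p ≤ z0) with hP0
  set P1 : Finset ℕ := P.filter (fun p => ¬ p ≤ z0) with hP1
  have hPu : P = P0 ∪ P1 := (filter_union_filter_not_eq _ _).symm
  have hdisj : Disjoint P0 P1 := disjoint_filter_filter_not _ _ _
  have hPp1 : ∀ p ∈ P1, p.Prime ∧ z0 < p ∧ p ≤ Y := by
    intro p hp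
    rw [hP1, mem_filter] at hp
    exact ⟨hPp p hp.1, by omega, (((hP p hp.1).2.1).trans hyY.le)⟩
  have hPp0 : ∀ p ∈ P0, p.Prime ∧ p ≤ z0 := by
    intro p hp
    rw [hP0, mem_filter] at hp
    exact ⟨hPp p hp.1, hp.2⟩
  have hV : V P = V P0 * V P1 := by
    unfold V
    conv_lhs => rw [hPu]
    rw [prod_union hdisj]
  have hV00 : 0 ≤ V P0 := (V_pos fun p hp => (hPp0 p hp).1).le
  have hXq : (0 : ℝ) ≤ (X : ℝ) / q := by positivity
  have key := hFL b J z0 P1 (fun p => 1 / (p : ℝ)) hbC (by omega) hPp1 (fun p hp => by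
      have hp0 : (0 : ℝ) < p := by exact_mod_cast (hPp1 p hp).1.pos
      have hp1 : (1 : ℝ) < p := by exact_mod_cast (hPp1 p hp).1.one_lt
      refine ⟨by positivity, ?_⟩
      push_cast
      apply one_div_le_one_div_of_le (by linarith) (by linarith))
    ((Icc 1 X).filter (fun n => n ≡ c [MOD q] ∧ ∀ p ∈ P0, n % p ≠ 0)) (fun _ => (1 : ℝ))
    (fun p n => n % p = 0) ((X : ℝ) / q * V P0) (fun _ => (K0 : ℝ))
    (fun _ _ => zero_le_one) (by positivity) (by
      intro T hT hTD
      have hTp : ∀ p ∈ T, p.Prime := fun p hp => (hPp1 p (hT hp)).1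
      have hdT : Disjoint P0 T := disjoint_of_subset_right hT hdisj
      have hTP : ∀ p ∈ P0 ∪ T, p ∈ P := by
        intro p hp
        rcases mem_union.1 hp with h | h
        · exact (mem_filter.1 h).1
        · exact (mem_filter.1 (hT h)).1
      have h3 := Pool.Agent.H373R2.T7.count_sys (fun p a => if p ≤ z0 then ¬ a = 0 else a = 0) X (P0 ∪ T)
        (fun p hp => hPp p (hTP p hp)) q hq (fun p hp => (hP p (hTP p hp)).2.2) c
      have hTz : ∀ p ∈ T, ¬ p ≤ z0 := fun p hp => by have := (hPp1 p (hT hp)).2.1; omega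
      have hρ1 : ∀ p ∈ P, ((range p).filter (fun a => a = 0)).card = 1 := by
        intro p hp
        rw [card_eq_one]
        refine ⟨0, ?_⟩
        ext a
        simp only [mem_filter, mem_range, mem_singleton]
        constructor
        · exact fun h => h.2
        · rintro rfl; exact ⟨(hPp p hp).pos, rfl⟩
      have c1 : ∀ p ∈ P0, (((range p).filter (fun a => if p ≤ z0 then ¬ a = 0 else a = 0)).card : ℝ) = p - 1 := by
        intro p hp
        simp only [if_pos (hPp0 p hp).2]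
        have h4 := card_filter_add_card_filter_not (s := range p) (fun a => a = 0)
        rw [card_range, hρ1 p (mem_filter.1 hp).1] at h4
        have h7 : (1 : ℝ) + (((range p).filter (fun a => ¬ a = 0)).card : ℝ) = p := by exact_mod_cast h4
        linarith
      have c2 : ∀ p ∈ T, (((range p).filter (fun a => if p ≤ z0 then ¬ a = 0 else a = 0)).card : ℝ) = 1 := by
        intro p hp
        simp only [if_neg (hTz p hp)]
        exact_mod_cast hρ1 p (mem_filter.1 (hT hp)).1
      rw [prod_union hdT, prod_union hdT] at h3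
      have e1 : ∏ p ∈ P0, ((((range p).filter (fun a => if p ≤ z0 then ¬ a = 0 else a = 0)).card : ℝ) / p) = V P0 := by
        unfold V
        apply prod_congr rfl
        intro p hp
        rw [c1 p hp]
        have hp0 : (p : ℝ) ≠ 0 := by exact_mod_cast (hPp0 p hp).1.ne_zero
        field_simp
      have e2 : ∏ p ∈ T, ((((range p).filter (fun a => if p ≤ z0 then ¬ a = 0 else a = 0)).card : ℝ) / p) = ∏ p ∈ T, (1 / (p : ℝ)) := by
        apply prod_congr rfl
        intro p hp
        rw [c2 p hp]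
      have e3 : ∏ p ∈ P0, (((range p).filter (fun a => if p ≤ z0 then ¬ a = 0 else a = 0)).card : ℝ) ≤ K0 := by
        rw [hK0]
        push_cast
        have h5 : ∏ p ∈ P0, (((range p).filter (fun a => if p ≤ z0 then ¬ a = 0 else a = 0)).card : ℝ) ≤ ∏ p ∈ P0, (p : ℝ) := by
          apply prod_le_prod (fun _ _ => Nat.cast_nonneg _)
          intro p hp
          rw [c1 p hp]
          linarith
        refine h5.trans ?_
        apply prod_le_prod_of_subset_of_one_le
        · intro p hp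
          rw [mem_filter, mem_Icc]
          exact ⟨⟨(hPp0 p hp).1.one_lt.le, (hPp0 p hp).2⟩, (hPp0 p hp).1⟩
        · intro p _; exact Nat.cast_nonneg _
        · intro p hp _
          exact_mod_cast (mem_filter.1 hp).2.one_lt.le
      have e4 : ∏ p ∈ T, (((range p).filter (fun a => if p ≤ z0 then ¬ a = 0 else a = 0)).card : ℝ) = 1 :=
        prod_eq_one c2
      rw [e1, e2, e4, mul_one] at h3
      have e5 : ∑ m ∈ ((Icc 1 X).filter (fun n => n ≡ c [MOD q] ∧ ∀ p ∈ P0, n % p ≠ 0)).filter (fun m => ∀ p ∈ T, m % p = 0), (1 : ℝ) =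
          (((Icc 1 X).filter (fun n => n ≡ c [MOD q] ∧ ∀ p ∈ P0 ∪ T, if p ≤ z0 then ¬ n % p = 0 else n % p = 0)).card : ℝ) := by
        rw [sum_const, nsmul_eq_mul, mul_one, filter_filter]
        congr 2
        apply filter_congr
        intro n _
        constructor
        · rintro ⟨⟨h7, h5⟩, h6⟩
          refine ⟨h7, fun p hp => ?_⟩
          rcases mem_union.1 hp with h | h
          · rw [if_pos (hPp0 p h).2]
            exact h5 p h
          · rw [if_neg (hTz p h)]
            exact h6 p h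
        · rintro ⟨h7, h5⟩
          refine ⟨⟨h7, ?_⟩, ?_⟩
          · intro p hp
            have h8 := h5 p (mem_union_left _ hp)
            rwa [if_pos (hPp0 p hp).2] at h8
          · intro p hp
            have h8 := h5 p (mem_union_right _ hp)
            rwa [if_neg (hTz p hp)] at h8
      have h6 := h3.trans e3
      rw [← e5] at h6
      rw [mul_assoc]
      refine le_trans (le_of_eq ?_) h6
      congr 2
      apply sum_congr _ (fun _ _ => rfl)
      ext m
      simp only [mem_filter])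
  have f1 : ∑ m ∈ ((Icc 1 X).filter (fun n => n ≡ c [MOD q] ∧ ∀ p ∈ P0, n % p ≠ 0)).filter (fun m => ∀ p ∈ P1, ¬ m % p = 0), (1 : ℝ) =
      ((((Icc 1 X).filter (fun n : ℕ => n ≡ c [MOD q] ∧ ∀ p ∈ P, n % p ≠ 0)).card : ℕ) : ℝ) := by
    rw [sum_const, nsmul_eq_mul, mul_one, filter_filter]
    congr 2
    apply filter_congr
    intro n _
    conv_rhs => rw [hPu]
    constructor
    · rintro ⟨⟨h7, h5⟩, h6⟩
      refine ⟨h7, fun p hp => ?_⟩
      rcases mem_union.1 hp with h | h
      · exact h5 p h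
      · exact h6 p h
    · rintro ⟨h7, h⟩
      exact ⟨⟨h7, fun p hp => h p (mem_union_left _ hp)⟩, fun p hp => h p (mem_union_right _ hp)⟩
  have f2 : (X : ℝ) / q * V P0 * ∏ p ∈ P1, (1 - 1 / (p : ℝ)) = (X : ℝ) / q * V P := by
    rw [hV, mul_assoc]; rfl
  rw [f2] at key
  have key2 : |((((Icc 1 X).filter (fun n : ℕ => n ≡ c [MOD q] ∧ ∀ p ∈ P, n % p ≠ 0)).card : ℕ) : ℝ) - (X : ℝ) / q * V P| ≤
      (1 / 2 : ℝ) ^ b * ((X : ℝ) / q * V P) + ((J : ℝ) + 2) *
        ∑ T ∈ P1.powerset.filter (fun T : Finset ℕ => ∏ p ∈ T, p ≤ (2 ^ 2 ^ J) ^ (C0 * b)), (K0 : ℝ) := by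
    rw [← f1]
    refine le_trans (le_of_eq ?_) key
    congr 2
    apply sum_congr _ (fun _ _ => rfl)
    ext m
    simp only [mem_filter]
  refine key2.trans ?_
  have hcard : (P1.powerset.filter (fun T : Finset ℕ => ∏ p ∈ T, p ≤ D)).card ≤ D := by
    calc _ ≤ (Icc 1 D).card := by
          apply card_le_card_of_injOn (fun T : Finset ℕ => ∏ p ∈ T, p)
          · intro T hT
            rw [mem_coe, mem_filter, mem_powerset] at hT
            have h5 : 1 ≤ ∏ p ∈ T, p := Nat.pos_of_ne_zero (prod_ne_zero_iff.2 fun p hp => (hPp1 p (hT.1 hp)).1.ne_zero)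
            exact mem_coe.2 (mem_Icc.2 ⟨h5, hT.2⟩)
          · intro S hS S' hS' h
            rw [mem_coe, mem_filter, mem_powerset] at hS hS'
            have hSp : ∀ p ∈ S, p.Prime := fun p hp => (hPp1 p (hS.1 hp)).1
            have hSp' : ∀ p ∈ S', p.Prime := fun p hp => (hPp1 p (hS'.1 hp)).1
            simp only at h
            ext p
            constructor
            · intro hp
              have h1 : p ∣ ∏ p ∈ S', p := h ▸ dvd_prod_of_mem _ hp
              obtain ⟨p', hp', hd⟩ := (Nat.Prime.prime (hSp p hp)).exists_mem_finset_dvd h1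
              rw [Nat.prime_dvd_prime_iff_eq (hSp p hp) (hSp' p' hp')] at hd
              exact hd ▸ hp'
            · intro hp
              have h1 : p ∣ ∏ p ∈ S, p := h ▸ dvd_prod_of_mem _ hp
              obtain ⟨p', hp', hd⟩ := (Nat.Prime.prime (hSp' p hp)).exists_mem_finset_dvd h1
              rw [Nat.prime_dvd_prime_iff_eq (hSp' p hp) (hSp p' hp')] at hd
              exact hd ▸ hp'
      _ = D := by simp
  apply add_le_add_right
  apply mul_le_mul_of_nonneg_left _ (by positivity)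
  rw [sum_const, nsmul_eq_mul]
  apply mul_le_mul_of_nonneg_right _ (Nat.cast_nonneg _)
  have : (P1.powerset.filter (fun T : Finset ℕ => ∏ p ∈ T, p ≤ (2 ^ 2 ^ J) ^ (C0 * b))).card ≤ y ^ (2 * (C0 * b)) := by
    calc _ ≤ D := hcard
      _ ≤ (y ^ 2) ^ (C0 * b) := Nat.pow_le_pow_left hYy _
      _ = y ^ (2 * (C0 * b)) := by rw [← pow_mul]
  exact_mod_cast this

end Pool.Agent.W333.MH
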