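import Mathlib
import Pool.Agent.W333.MH.FLc
import Pool.Agent.H318R2.Cr.Prod
import Pool.Agent.H262R3.Lk.Stubs

/-! The fundamental lemma in progressions with relative error `(log z/log N)^5`. -/

set_option autoImplicit false

namespace Pool.Agent.W333.MH

open Finset

open Pool.Agent.H318R2.Cr (Rgh Pz mem_Pz one_sub_inv_pos V_pos V_le_one cz_bounds)
open Pool.Agent.H262R3.Lk (rc St_FL)

open Pool.Agent.H318R2.Cr renaming V → VV

/-- primes up to `y` not dividing `q` -/
noncomputable def PQ (y q : ℕ) : Finset ℕ := (Pz y).filter (fun p => ¬ p ∣ q)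

theorem mem_PQ {y q p : ℕ} : p ∈ PQ y q ↔ (p.Prime ∧ p ≤ y) ∧ ¬ p ∣ q := by
  unfold PQ
  rw [mem_filter, mem_Pz]

theorem tot_eq {q : ℕ} (_hq : 1 ≤ q) : (q.totient : ℝ) = q * ∏ p ∈ q.primeFactors, (1 - 1 / (p : ℝ)) := by
  have h := Nat.totient_eq_mul_prod_factors q
  have h2 : ((q.totient : ℚ) : ℝ) = ((q * ∏ p ∈ q.primeFactors, (1 - (p : ℚ)⁻¹) : ℚ) : ℝ) := by
    rw [h]
  push_cast at h2
  rw [h2]
  simp only [one_div]

theorem prod_le {y q X : ℕ} (hq : 1 ≤ q) :
    (X : ℝ) / q * Pool.Agent.W41.V (PQ y q) ≤ X * VV y / q.totient := by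
  have hq0 : (0 : ℝ) < q := by exact_mod_cast hq
  have ht : (0 : ℝ) < q.totient := by exact_mod_cast Nat.totient_pos.2 hq
  have h1 : VV y = (∏ p ∈ (Pz y).filter (fun p => p ∣ q), (1 - 1 / (p : ℝ))) * Pool.Agent.W41.V (PQ y q) := by
    unfold Pool.Agent.H318R2.Cr.V Pool.Agent.W41.V PQ
    exact (prod_filter_mul_prod_filter_not (Pz y) (fun p => p ∣ q) _).symm
  have h2 : ∏ p ∈ q.primeFactors, (1 - 1 / (p : ℝ)) ≤ ∏ p ∈ (Pz y).filter (fun p => p ∣ q), (1 - 1 / (p : ℝ)) := by
    have hsub : (Pz y).filter (fun p => p ∣ q) ⊆ q.primeFactors := by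
      intro p hp
      rw [mem_filter, mem_Pz] at hp
      exact Nat.mem_primeFactors.2 ⟨hp.1.1, hp.2, by omega⟩
    rw [← prod_sdiff hsub]
    have h3 : ∏ p ∈ q.primeFactors \ (Pz y).filter (fun p => p ∣ q), (1 - 1 / (p : ℝ)) ≤ 1 := by
      apply prod_le_one
      · intro p hp
        exact (one_sub_inv_pos (Nat.prime_of_mem_primeFactors (mem_sdiff.1 hp).1)).le
      · intro p _
        exact Pool.Agent.W41.fac_le_one
    have h4 : 0 ≤ ∏ p ∈ (Pz y).filter (fun p => p ∣ q), (1 - 1 / (p : ℝ)) :=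
      prod_nonneg fun p hp => (one_sub_inv_pos (mem_Pz.1 (mem_filter.1 hp).1).1).le
    nlinarith
  have h5 : (0 : ℝ) < Pool.Agent.W41.V (PQ y q) := Pool.Agent.W41.V_pos fun p hp => (mem_PQ.1 hp).1.1
  rw [h1, le_div_iff₀ ht, tot_eq hq]
  have h6 : (X : ℝ) / q * Pool.Agent.W41.V (PQ y q) * (q * ∏ p ∈ q.primeFactors, (1 - 1 / (p : ℝ))) =
      X * ((∏ p ∈ q.primeFactors, (1 - 1 / (p : ℝ))) * Pool.Agent.W41.V (PQ y q)) := by
    field_simp
  rw [h6]
  apply mul_le_mul_of_nonneg_left _ (Nat.cast_nonneg _)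
  exact mul_le_mul_of_nonneg_right h2 h5.le

theorem prod_eq {y q X : ℕ} (hq : 1 ≤ q) (hqy : q ≤ y) :
    (X : ℝ) / q * Pool.Agent.W41.V (PQ y q) = X * VV y / q.totient := by
  have hq0 : (0 : ℝ) < q := by exact_mod_cast hq
  have ht : (0 : ℝ) < q.totient := by exact_mod_cast Nat.totient_pos.2 hq
  have h1 : VV y = (∏ p ∈ (Pz y).filter (fun p => p ∣ q), (1 - 1 / (p : ℝ))) * Pool.Agent.W41.V (PQ y q) := by
    unfold Pool.Agent.H318R2.Cr.V Pool.Agent.W41.V PQ
    exact (prod_filter_mul_prod_filter_not (Pz y) (fun p => p ∣ q) _).symm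
  have h2 : (Pz y).filter (fun p => p ∣ q) = q.primeFactors := by
    ext p
    rw [mem_filter, mem_Pz, Nat.mem_primeFactors]
    constructor
    · rintro ⟨⟨h3, h4⟩, h5⟩
      exact ⟨h3, h5, by omega⟩
    · rintro ⟨h3, h4, h5⟩
      exact ⟨⟨h3, (Nat.le_of_dvd (by omega) h4).trans hqy⟩, h4⟩
  rw [h1, h2, eq_div_iff ht.ne', tot_eq hq]
  field_simp

open Classical in
theorem rc_eq {y q b N : ℕ} (hb : b.Coprime q) :
    rc y q b N = ((Icc 1 N).filter (fun n : ℕ => n ≡ b [MOD q] ∧ ∀ p ∈ PQ y q, n % p ≠ 0)).card := by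
  unfold rc
  congr 1
  apply filter_congr
  intro n _
  constructor
  · rintro ⟨h1, h2⟩
    refine ⟨h2, fun p hp h3 => ?_⟩
    have h4 := mem_PQ.1 hp
    exact h1 p h4.1.1 h4.1.2 (Nat.dvd_of_mod_eq_zero h3)
  · rintro ⟨h1, h2⟩
    refine ⟨fun p hp hpy hd => ?_, h1⟩
    by_cases hpq : p ∣ q
    · have h3 : n ≡ b [MOD p] := h1.of_dvd hpq
      have h4 : p ∣ b := (Nat.ModEq.dvd_iff h3 dvd_rfl).1 hd
      have h5 : p ∣ Nat.gcd b q := Nat.dvd_gcd h4 hpq
      rw [hb] at h5
      exact hp.one_lt.ne' (Nat.dvd_one.1 h5)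
    · exact h2 p (mem_PQ.2 ⟨⟨hp, hpy⟩, hpq⟩) (Nat.mod_eq_zero_of_dvd hd)

theorem rc_anti {y z q b N : ℕ} (hyz : y ≤ z) : rc z q b N ≤ rc y q b N := by
  classical
  unfold rc
  apply card_le_card
  intro n hn
  rw [mem_filter] at hn ⊢
  exact ⟨hn.1, fun p hp hpy => hn.2.1 p hp (hpy.trans hyz), hn.2.2⟩

theorem rc_triv {z q b N : ℕ} (hq : 1 ≤ q) (hqN : q ≤ N) : (rc z q b N : ℝ) ≤ 2 * (N / q) := by
  classical
  have h1 : rc z q b N ≤ ((Icc 1 N).filter (fun n => n ≡ b [MOD q])).card := by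
    unfold rc
    apply card_le_card
    intro n hn
    rw [mem_filter] at hn ⊢
    exact ⟨hn.1, hn.2.2⟩
  have h2 := (abs_le.1 (Pool.Agent.H373R2.T7.count_class N q b hq)).2
  have h3 : (rc z q b N : ℝ) ≤ (((Icc 1 N).filter (fun n => n ≡ b [MOD q])).card : ℝ) := by exact_mod_cast h1
  have hq0 : (0 : ℝ) < q := by exact_mod_cast hq
  have h4 : (1 : ℝ) ≤ N / q := by
    rw [one_le_div hq0]; exact_mod_cast hqN
  linarith

theorem JJ_log {y : ℕ} (hy : 2 ≤ y) : ((Pool.Agent.W41.JJ y : ℝ) + 2) ≤ 6 * Real.log y := by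
  have h1 := Pool.Agent.W41.JJ_pow y hy
  have h2 : Pool.Agent.W41.JJ y + 2 ≤ 2 * 2 ^ Pool.Agent.W41.JJ y := by
    generalize Pool.Agent.W41.JJ y = j
    induction j with
    | zero => norm_num
    | succ j ih => rw [pow_succ]; omega
  have h3 : (2 : ℝ) ^ (Nat.log 2 y) ≤ y := by exact_mod_cast Nat.pow_log_le_self 2 (by omega)
  have h4 : (Nat.log 2 y : ℝ) * Real.log 2 ≤ Real.log y := by
    rw [← Real.log_pow]
    exact Real.log_le_log (by positivity) h3
  have h5 : (Pool.Agent.W41.JJ y : ℝ) + 2 ≤ 4 * Nat.log 2 y := by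
    have : Pool.Agent.W41.JJ y + 2 ≤ 4 * Nat.log 2 y := by omega
    exact_mod_cast this
  have h6 : (0.6931471803 : ℝ) < Real.log 2 := Real.log_two_gt_d9
  have h7 : (0 : ℝ) ≤ Nat.log 2 y := Nat.cast_nonneg _
  nlinarith

theorem exp5 {x : ℝ} (hx : 0 ≤ x) : x ^ 5 ≤ 120 * Real.exp x := by
  have h := Real.pow_div_factorial_le_exp x hx 5
  have h1 : ((Nat.factorial 5 : ℕ) : ℝ) = 120 := by norm_num [Nat.factorial]
  rw [h1, div_le_iff₀ (by norm_num)] at h
  linarith

theorem exp2 {x : ℝ} (hx : 0 ≤ x) : x ^ 2 ≤ 2 * Real.exp x := by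
  have h := Real.pow_div_factorial_le_exp x hx 2
  have h1 : ((Nat.factorial 2 : ℕ) : ℝ) = 2 := by norm_num [Nat.factorial]
  rw [h1, div_le_iff₀ (by norm_num)] at h
  linarith

theorem natpow_exp {z n : ℕ} (hz : 1 ≤ z) : (z : ℝ) ^ n = Real.exp (n * Real.log z) := by
  rw [Real.exp_nat_mul, Real.exp_log (by exact_mod_cast hz)]

/-- the size of the main term from below -/
theorem main_ge {c1 : ℝ} (hc1 : 0 < c1) {z q N : ℕ} (hz : 32 ≤ z) (hq : 1 ≤ q) (hq8 : q ^ 8 ≤ z) (hN : z ≤ N)
    (hV : c1 ≤ VV z * Real.log z) :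
    c1 * Real.exp (7 / 8 * Real.log N) / Real.log z ≤ N * VV z / q.totient := by
  have hl : 0 < Real.log z := Real.log_pos (by exact_mod_cast (by omega : 1 < z))
  have hLl : Real.log z ≤ Real.log N := Real.log_le_log (by exact_mod_cast (by omega : 0 < z)) (by exact_mod_cast hN)
  have ht : (0 : ℝ) < q.totient := by exact_mod_cast Nat.totient_pos.2 hq
  have hq0 : (0 : ℝ) < q := by exact_mod_cast hq
  have htq : (q.totient : ℝ) ≤ q := by exact_mod_cast Nat.totient_le q
  have h1 : (q : ℝ) ≤ Real.exp (1 / 8 * Real.log N) := by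
    have h2 : (q : ℝ) ^ 8 ≤ N := by exact_mod_cast hq8.trans hN
    have h3 : Real.log ((q : ℝ) ^ 8) ≤ Real.log N := Real.log_le_log (by positivity) h2
    rw [Real.log_pow] at h3
    rw [← Real.exp_log hq0]
    apply Real.exp_le_exp.2
    push_cast at h3
    linarith
  have h4 : (N : ℝ) = Real.exp (7 / 8 * Real.log N) * Real.exp (1 / 8 * Real.log N) := by
    rw [← Real.exp_add]
    have : 7 / 8 * Real.log N + 1 / 8 * Real.log N = Real.log N := by ring
    rw [this, Real.exp_log (by exact_mod_cast (by omega : 0 < N))]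
  have h5 : c1 / Real.log z ≤ VV z := by
    rw [div_le_iff₀ hl]; exact hV
  rw [le_div_iff₀ ht]
  have hE : 0 < Real.exp (7 / 8 * Real.log N) := Real.exp_pos _
  have hE2 : 0 < Real.exp (1 / 8 * Real.log N) := Real.exp_pos _
  calc c1 * Real.exp (7 / 8 * Real.log N) / Real.log z * q.totient
      = Real.exp (7 / 8 * Real.log N) * q.totient * (c1 / Real.log z) := by ring
    _ ≤ Real.exp (7 / 8 * Real.log N) * Real.exp (1 / 8 * Real.log N) * VV z := by
        apply mul_le_mul _ h5 (by positivity) (by positivity)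
        apply mul_le_mul_of_nonneg_left (htq.trans h1) hE.le
    _ = N * VV z := by rw [← h4]

theorem fl : Pool.Agent.H262R3.Lk.St_FL := by
  classical
  obtain ⟨C0, K0, hC0, hK0, hcore⟩ := core
  obtain ⟨c1, c2, hc1, hc12, hcz⟩ := cz_bounds
  have hC0r : (1 : ℝ) ≤ C0 := by exact_mod_cast hC0
  have hK0r : (1 : ℝ) ≤ K0 := by exact_mod_cast hK0
  have hc2 : 0 < c2 := hc1.trans_le hc12
  -- upper bound
  set K : ℕ := 8 * C0 ^ 2 with hK
  have hK1 : 1 ≤ K := by
    have : 1 ≤ C0 ^ 2 := Nat.one_le_pow _ _ hC0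
    omega
  have hKr : (K : ℝ) = 8 * (C0 : ℝ) ^ 2 := by rw [hK]; push_cast; ring
  have hKpos : (0 : ℝ) < K := by exact_mod_cast hK1
  have upper : ∃ Cb : ℝ, 0 < Cb ∧ ∀ z q b N : ℕ, 32 ≤ z → 1 ≤ q → q ^ 8 ≤ z → b.Coprime q → z ≤ N →
      (rc z q b N : ℝ) ≤ Cb * (N * VV z / q.totient) := by
    refine ⟨2 * K / c1 + (4 * K * c2 / c1 + 32 * K0 / c1), by positivity, ?_⟩
    intro z q b N hz hq hq8 hb hN
    have hz1 : (1 : ℝ) < z := by exact_mod_cast (by omega : 1 < z)
    have hl : 0 < Real.log z := Real.log_pos hz1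
    have hLl : Real.log z ≤ Real.log N := Real.log_le_log (by linarith) (by exact_mod_cast hN)
    have ht : (0 : ℝ) < q.totient := by exact_mod_cast Nat.totient_pos.2 hq
    have hq0 : (0 : ℝ) < q := by exact_mod_cast hq
    have htq : (q.totient : ℝ) ≤ q := by exact_mod_cast Nat.totient_le q
    have hqz : q ≤ z := (Nat.le_self_pow (by norm_num) q).trans hq8
    have hN0 : (0 : ℝ) < N := by exact_mod_cast (by omega : 0 < N)
    have hV := hcz z (by omega)
    have hVz : 0 < VV z := V_pos z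
    have hM := main_ge hc1 hz hq hq8 hN hV.1
    set M := N * VV z / q.totient with hMdef
    have hM0 : 0 < M := by positivity
    have hVz' : c1 / Real.log z ≤ VV z := by rw [div_le_iff₀ hl]; exact hV.1
    -- choose y
    obtain ⟨y, hy1, hy2, hyz⟩ : ∃ y : ℕ, y ^ K ≤ z ∧ z < (y + 1) ^ K ∧ y ≤ z := by
      refine ⟨Nat.findGreatest (fun y => y ^ K ≤ z) z, ?_, ?_, Nat.findGreatest_le _⟩
      · exact Nat.findGreatest_spec (P := fun y => y ^ K ≤ z) (m := 0) (Nat.zero_le _) (by
          rw [zero_pow (by omega)]; exact Nat.zero_le _)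
      · by_contra hcon
        push Not at hcon
        by_cases h : Nat.findGreatest (fun y => y ^ K ≤ z) z + 1 ≤ z
        · have h2 := Nat.findGreatest_is_greatest (P := fun y => y ^ K ≤ z) (n := z)
            (k := Nat.findGreatest (fun y => y ^ K ≤ z) z + 1) (Nat.lt_succ_self _) h
          exact h2 hcon
        · have h3 : z + 1 ≤ Nat.findGreatest (fun y => y ^ K ≤ z) z + 1 := by omega
          have h4 : Nat.findGreatest (fun y => y ^ K ≤ z) z + 1 ≤
            (Nat.findGreatest (fun y => y ^ K ≤ z) z + 1) ^ K := Nat.le_self_pow (by omega) _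
          omega
    rcases Nat.lt_or_ge y 2 with hy | hy
    · -- z is bounded
      have h1 := rc_triv (z := z) (b := b) hq (hqz.trans hN)
      have h2 : Real.log z ≤ K := by
        have h3 : z < 2 ^ K := hy2.trans_le (Nat.pow_le_pow_left (by omega) K)
        have h4 : (z : ℝ) ≤ 2 ^ K := by exact_mod_cast h3.le
        have h5 : Real.log z ≤ Real.log (2 ^ K) := Real.log_le_log (by linarith) h4
        rw [Real.log_pow] at h5
        have h6 : Real.log 2 ≤ 1 := by
          have := Real.log_two_lt_d9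
          linarith
        nlinarith
      have h3 : (N : ℝ) / q ≤ K / c1 * M := by
        have h4 : (N : ℝ) / q ≤ N / q.totient := by
          apply div_le_div_of_nonneg_left hN0.le ht htq
        refine h4.trans ?_
        rw [hMdef]
        have h5 : 1 ≤ K / c1 * VV z := by
          have h6 : c1 / K ≤ VV z := by
            refine le_trans ?_ hVz'
            apply div_le_div_of_nonneg_left hc1.le hl h2
          have h7 : K / c1 * (c1 / K) = 1 := by field_simp
          calc (1 : ℝ) = K / c1 * (c1 / K) := h7.symm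
            _ ≤ K / c1 * VV z := by
              apply mul_le_mul_of_nonneg_left h6 (by positivity)
        calc (N : ℝ) / q.totient = N / q.totient * 1 := by ring
          _ ≤ N / q.totient * (K / c1 * VV z) := by
            apply mul_le_mul_of_nonneg_left h5 (by positivity)
          _ = K / c1 * (N * VV z / q.totient) := by ring
      have h8 : 0 ≤ (4 * K * c2 / c1 + 32 * K0 / c1) * M := by positivity
      calc (rc z q b N : ℝ) ≤ 2 * (N / q) := h1
        _ ≤ 2 * (K / c1 * M) := by linarith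
        _ ≤ (2 * K / c1 + (4 * K * c2 / c1 + 32 * K0 / c1)) * M := by
          have : 2 * (K / c1 * M) = 2 * K / c1 * M := by ring
          rw [this, add_mul]
          linarith
    · have hyr : (2 : ℝ) ≤ y := by exact_mod_cast hy
      have hly : 0 < Real.log y := Real.log_pos (by linarith)
      have k1 := hcore C0 le_rfl y hy q hq b N (PQ y q) (fun p hp => by
        have := mem_PQ.1 hp
        exact ⟨this.1.1, this.1.2, this.2⟩)
      have k2 := (abs_le.1 k1).2
      have k3 : ((((Icc 1 N).filter (fun n : ℕ => n ≡ b [MOD q] ∧ ∀ p ∈ PQ y q, n % p ≠ 0)).card : ℕ) : ℝ) =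
          (rc y q b N : ℝ) := by
        rw [rc_eq hb]
      rw [k3] at k2
      have k4 : (rc z q b N : ℝ) ≤ rc y q b N := by exact_mod_cast rc_anti hyz
      have k5 := prod_le (y := y) (q := q) (X := N) hq
      have k6 : 0 ≤ (N : ℝ) / q * Pool.Agent.W41.V (PQ y q) := by
        have : 0 < Pool.Agent.W41.V (PQ y q) := Pool.Agent.W41.V_pos fun p hp => (mem_PQ.1 hp).1.1
        positivity
      have k7 : (1 / 2 : ℝ) ^ C0 ≤ 1 := pow_le_one₀ (by norm_num) (by norm_num)
      -- log y
      have l1 : (K : ℝ) * Real.log y ≤ Real.log z := by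
        rw [← Real.log_pow]
        apply Real.log_le_log (by positivity)
        exact_mod_cast hy1
      have l2 : Real.log z ≤ 2 * K * Real.log y := by
        have h3 : z ≤ (y ^ 2) ^ K := hy2.le.trans (Nat.pow_le_pow_left (by nlinarith) K)
        have h4 : (z : ℝ) ≤ (y : ℝ) ^ (2 * K) := by
          rw [pow_mul]; exact_mod_cast h3
        have h5 := Real.log_le_log (by linarith) h4
        rw [Real.log_pow] at h5
        push_cast at h5
        exact h5
      have l3 : VV y ≤ 2 * K * c2 / c1 * VV z := by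
        have h3 : VV y ≤ c2 / Real.log y := by rw [le_div_iff₀ hly]; exact (hcz y hy).2
        have h4 : c2 / Real.log y ≤ 2 * K * c2 / Real.log z := by
          rw [div_le_div_iff₀ hly hl]
          nlinarith
        refine h3.trans (h4.trans ?_)
        have h5 : 2 * K * c2 / c1 * (c1 / Real.log z) = 2 * K * c2 / Real.log z := by field_simp
        rw [← h5]
        apply mul_le_mul_of_nonneg_left hVz' (by positivity)
      have l4 : (N : ℝ) * VV y / q.totient ≤ 2 * K * c2 / c1 * M := by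
        calc (N : ℝ) * VV y / q.totient ≤ N * (2 * K * c2 / c1 * VV z) / q.totient := by
              apply div_le_div_of_nonneg_right _ ht.le
              apply mul_le_mul_of_nonneg_left l3 hN0.le
          _ = 2 * K * c2 / c1 * M := by rw [hMdef]; ring
      -- the error term
      have l5 : (y : ℝ) ^ (2 * (C0 * C0)) ≤ Real.exp (1 / 4 * Real.log z) := by
        rw [natpow_exp (by omega)]
        apply Real.exp_le_exp.2
        push_cast
        rw [hKr] at l1
        nlinarith
      have l6 := JJ_log hy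
      have l7 : Real.log y ≤ Real.log z := Real.log_le_log (by linarith) (by exact_mod_cast hyz)
      have l8 : ((Pool.Agent.W41.JJ y : ℝ) + 2) * ((y : ℝ) ^ (2 * (C0 * C0)) * K0) ≤ 32 * K0 / c1 * M := by
        have h3 : ((Pool.Agent.W41.JJ y : ℝ) + 2) * ((y : ℝ) ^ (2 * (C0 * C0)) * K0) ≤
            (6 * Real.log z) * (Real.exp (1 / 4 * Real.log z) * K0) := by
          apply mul_le_mul (by linarith) _ (by positivity) (by positivity)
          apply mul_le_mul_of_nonneg_right l5 (by positivity)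
        refine h3.trans ?_
        have h4 : c1 * Real.exp (7 / 8 * Real.log z) / Real.log z ≤ M := by
          refine le_trans ?_ hM
          apply div_le_div_of_nonneg_right _ hl.le
          apply mul_le_mul_of_nonneg_left _ hc1.le
          apply Real.exp_le_exp.2
          linarith
        have h5 : 32 * K0 / c1 * (c1 * Real.exp (7 / 8 * Real.log z) / Real.log z) ≤ 32 * K0 / c1 * M :=
          mul_le_mul_of_nonneg_left h4 (by positivity)
        refine le_trans ?_ h5
        have h6 : Real.exp (7 / 8 * Real.log z) = Real.exp (1 / 4 * Real.log z) * Real.exp (5 / 8 * Real.log z) := by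
          rw [← Real.exp_add]; congr 1; ring
        have h7 := exp2 (x := 5 / 8 * Real.log z) (by positivity)
        have h8 : 32 * K0 / c1 * (c1 * Real.exp (7 / 8 * Real.log z) / Real.log z) =
            32 * K0 * Real.exp (7 / 8 * Real.log z) / Real.log z := by field_simp
        rw [h8, le_div_iff₀ hl, h6]
        have h9 : 0 < Real.exp (1 / 4 * Real.log z) := Real.exp_pos _
        have h10 : 6 * Real.log z * (Real.exp (1 / 4 * Real.log z) * K0) * Real.log z =
          (K0 * Real.exp (1 / 4 * Real.log z)) * (6 * Real.log z ^ 2) := by ring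
        have h11 : 32 * K0 * (Real.exp (1 / 4 * Real.log z) * Real.exp (5 / 8 * Real.log z)) =
          (K0 * Real.exp (1 / 4 * Real.log z)) * (32 * Real.exp (5 / 8 * Real.log z)) := by ring
        rw [h10, h11]
        apply mul_le_mul_of_nonneg_left _ (by positivity)
        nlinarith [Real.exp_pos (5 / 8 * Real.log z)]
      have l9 : 0 ≤ 2 * K / c1 * M := by positivity
      have l10 : (1 / 2 : ℝ) ^ C0 * ((N : ℝ) / q * Pool.Agent.W41.V (PQ y q)) ≤
          (N : ℝ) / q * Pool.Agent.W41.V (PQ y q) := by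
        calc _ ≤ 1 * ((N : ℝ) / q * Pool.Agent.W41.V (PQ y q)) := mul_le_mul_of_nonneg_right k7 k6
          _ = _ := one_mul _
      have l11 : (2 * K / c1 + (4 * K * c2 / c1 + 32 * K0 / c1)) * M =
          2 * K / c1 * M + (2 * (2 * K * c2 / c1 * M) + 32 * K0 / c1 * M) := by ring
      rw [l11]
      linarith
  obtain ⟨Cb, hCb, hupper⟩ := upper
  set s1 : ℝ := 4 * (C0 : ℝ) ^ 2 with hs1
  have hs1pos : 0 < s1 := by positivity
  set lam : ℝ := Real.log 2 / (4 * C0) with hlam
  have hlog2 : 0 < Real.log 2 := Real.log_pos (by norm_num)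
  have hlampos : 0 < lam := by positivity
  refine ⟨(Cb + 1) * s1 ^ 5 + (240 / lam ^ 5 + 6 * K0 * (120 * (8 / 3) ^ 5) / c1), by positivity, ?_⟩
  intro z q b N hz hq hq8 hb hN
  have hz1 : (1 : ℝ) < z := by exact_mod_cast (by omega : 1 < z)
  have hl : 0 < Real.log z := Real.log_pos hz1
  have hl1 : 1 ≤ Real.log z := by
    have h1 : Real.log (Real.exp 1) ≤ Real.log z := by
      apply Real.log_le_log (Real.exp_pos _)
      have := Real.exp_one_lt_d9
      have h32 : (32 : ℝ) ≤ z := by exact_mod_cast hz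
      linarith
    rwa [Real.log_exp] at h1
  have hLl : Real.log z ≤ Real.log N := Real.log_le_log (by linarith) (by exact_mod_cast hN)
  have hL : 0 < Real.log N := hl.trans_le hLl
  have ht : (0 : ℝ) < q.totient := by exact_mod_cast Nat.totient_pos.2 hq
  have hq0 : (0 : ℝ) < q := by exact_mod_cast hq
  have hqz : q ≤ z := (Nat.le_self_pow (by norm_num) q).trans hq8
  have hN0 : (0 : ℝ) < N := by exact_mod_cast (by omega : 0 < N)
  have hV := hcz z (by omega)
  have hVz : 0 < VV z := V_pos z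
  have hM := main_ge hc1 hz hq hq8 hN hV.1
  have hup := hupper z q b N hz hq hq8 hb hN
  set M := N * VV z / q.totient with hMdef
  have hM0 : 0 < M := by positivity
  have hr0 : 0 < Real.log z / Real.log N := by positivity
  rcases lt_or_ge (Real.log N) (s1 * Real.log z) with hcase | hcase
  · -- case (b)
    have h1 : |(rc z q b N : ℝ) - M| ≤ (Cb + 1) * M := by
      rw [abs_le]
      have : (0 : ℝ) ≤ rc z q b N := Nat.cast_nonneg _
      constructor <;> nlinarith
    have h2 : 1 ≤ s1 ^ 5 * (Real.log z / Real.log N) ^ 5 := by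
      rw [← mul_pow]
      apply one_le_pow₀
      rw [← mul_div_assoc, one_le_div hL]
      exact hcase.le
    refine h1.trans ?_
    have h3 : (Cb + 1) * M ≤ (Cb + 1) * M * (s1 ^ 5 * (Real.log z / Real.log N) ^ 5) :=
      le_mul_of_one_le_right (by positivity) h2
    refine h3.trans ?_
    have h4 : 0 ≤ (240 / lam ^ 5 + 6 * K0 * (120 * (8 / 3) ^ 5) / c1) * M * (Real.log z / Real.log N) ^ 5 := by
      positivity
    have h5 : ((Cb + 1) * s1 ^ 5 + (240 / lam ^ 5 + 6 * K0 * (120 * (8 / 3) ^ 5) / c1)) * M *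
        (Real.log z / Real.log N) ^ 5 = (Cb + 1) * M * (s1 ^ 5 * (Real.log z / Real.log N) ^ 5) +
        (240 / lam ^ 5 + 6 * K0 * (120 * (8 / 3) ^ 5) / c1) * M * (Real.log z / Real.log N) ^ 5 := by ring
    rw [h5]
    linarith
  · -- case (a)
    set s := Real.log N / Real.log z with hs
    have hsge : s1 ≤ s := by rw [hs, le_div_iff₀ hl]; exact hcase
    have hspos : 0 < s := hs1pos.trans_le hsge
    have hsl : s * Real.log z = Real.log N := by rw [hs]; field_simp
    set b0 := ⌊s / (4 * C0)⌋₊ with hb0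
    have hb0C : C0 ≤ b0 := by
      rw [hb0]
      apply Nat.le_floor
      rw [le_div_iff₀ (by positivity)]
      calc (C0 : ℝ) * (4 * C0) = s1 := by rw [hs1]; ring
        _ ≤ s := hsge
    have hb0le : (b0 : ℝ) ≤ s / (4 * C0) := Nat.floor_le (by positivity)
    have hb0gt : s / (4 * C0) < b0 + 1 := Nat.lt_floor_add_one _
    have k1 := hcore b0 hb0C z (by omega) q hq b N (PQ z q) (fun p hp => by
      have := mem_PQ.1 hp
      exact ⟨this.1.1, this.1.2, this.2⟩)
    have k3 : ((((Icc 1 N).filter (fun n : ℕ => n ≡ b [MOD q] ∧ ∀ p ∈ PQ z q, n % p ≠ 0)).card : ℕ) : ℝ) =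
        (rc z q b N : ℝ) := by
      rw [rc_eq hb]
    rw [k3, prod_eq hq hqz, ← hMdef] at k1
    refine k1.trans ?_
    -- first term
    have f1 : (1 / 2 : ℝ) ^ b0 ≤ 240 / lam ^ 5 * (Real.log z / Real.log N) ^ 5 := by
      have h1 : (1 / 2 : ℝ) ^ b0 = Real.exp (-(b0 * Real.log 2)) := by
        rw [Real.exp_neg, Real.exp_nat_mul, Real.exp_log (by norm_num), one_div, inv_pow]
      have h2 : -(b0 * Real.log 2) ≤ Real.log 2 + -(lam * s) := by
        have : lam * s = Real.log 2 * (s / (4 * C0)) := by rw [hlam]; ring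
        rw [this]
        nlinarith
      have h3 : (1 / 2 : ℝ) ^ b0 ≤ 2 * Real.exp (-(lam * s)) := by
        rw [h1]
        refine (Real.exp_le_exp.2 h2).trans (le_of_eq ?_)
        rw [Real.exp_add, Real.exp_log (by norm_num)]
      refine h3.trans ?_
      have h4 := exp5 (x := lam * s) (by positivity)
      have h5 : Real.log z / Real.log N = 1 / s := by rw [hs, one_div, inv_div]
      rw [h5, Real.exp_neg]
      have h6 : 0 < Real.exp (lam * s) := Real.exp_pos _
      have h7 : 240 / lam ^ 5 * (1 / s) ^ 5 = 240 / (lam * s) ^ 5 := by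
        field_simp
      rw [h7, le_div_iff₀ (by positivity)]
      rw [← div_eq_mul_inv, div_mul_eq_mul_div, div_le_iff₀ h6]
      linarith
    -- second term
    have f2 : (z : ℝ) ^ (2 * (C0 * b0)) ≤ Real.exp (1 / 2 * Real.log N) := by
      rw [natpow_exp (by omega)]
      apply Real.exp_le_exp.2
      push_cast
      rw [← hsl]
      have h1 : (C0 : ℝ) * b0 ≤ s / 4 := by
        calc (C0 : ℝ) * b0 ≤ C0 * (s / (4 * C0)) := by
              apply mul_le_mul_of_nonneg_left hb0le (by positivity)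
          _ = s / 4 := by field_simp
      nlinarith
    have f3 := JJ_log (y := z) (by omega)
    have f4 : ((Pool.Agent.W41.JJ z : ℝ) + 2) * ((z : ℝ) ^ (2 * (C0 * b0)) * K0) ≤
        6 * K0 * (120 * (8 / 3) ^ 5) / c1 * M * (Real.log z / Real.log N) ^ 5 := by
      have h3 : ((Pool.Agent.W41.JJ z : ℝ) + 2) * ((z : ℝ) ^ (2 * (C0 * b0)) * K0) ≤
          (6 * Real.log z) * (Real.exp (1 / 2 * Real.log N) * K0) := by
        apply mul_le_mul (by linarith) _ (by positivity) (by positivity)
        apply mul_le_mul_of_nonneg_right f2 (by positivity)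
      refine h3.trans ?_
      have h4 : 6 * K0 * (120 * (8 / 3) ^ 5) / c1 * (c1 * Real.exp (7 / 8 * Real.log N) / Real.log z) *
          (Real.log z / Real.log N) ^ 5 ≤
          6 * K0 * (120 * (8 / 3) ^ 5) / c1 * M * (Real.log z / Real.log N) ^ 5 := by
        apply mul_le_mul_of_nonneg_right _ (by positivity)
        apply mul_le_mul_of_nonneg_left hM (by positivity)
      refine le_trans ?_ h4
      have h6 : Real.exp (7 / 8 * Real.log N) = Real.exp (1 / 2 * Real.log N) * Real.exp (3 / 8 * Real.log N) := by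
        rw [← Real.exp_add]; congr 1; ring
      have h7 := exp5 (x := 3 / 8 * Real.log N) (by positivity)
      have h8 : 6 * K0 * (120 * (8 / 3) ^ 5) / c1 * (c1 * Real.exp (7 / 8 * Real.log N) / Real.log z) *
          (Real.log z / Real.log N) ^ 5 =
          6 * K0 * (Real.exp (1 / 2 * Real.log N)) *
            ((120 * (8 / 3) ^ 5 * Real.exp (3 / 8 * Real.log N)) * Real.log z ^ 4 / Real.log N ^ 5) := by
        rw [h6]; field_simp
      have h9 : 6 * Real.log z * (Real.exp (1 / 2 * Real.log N) * K0) =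
          6 * K0 * (Real.exp (1 / 2 * Real.log N)) * Real.log z := by ring
      rw [h8, h9]
      apply mul_le_mul_of_nonneg_left _ (by positivity)
      rw [le_div_iff₀ (by positivity)]
      have h10 : Real.log N ^ 5 ≤ 120 * (8 / 3) ^ 5 * Real.exp (3 / 8 * Real.log N) := by
        have : Real.log N ^ 5 = (8 / 3) ^ 5 * (3 / 8 * Real.log N) ^ 5 := by ring
        rw [this]
        nlinarith
      have h11 : Real.log z ≤ Real.log z ^ 4 := by
        calc Real.log z = Real.log z ^ 1 := (pow_one _).symm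
          _ ≤ Real.log z ^ 4 := pow_le_pow_right₀ hl1 (by norm_num)
      calc Real.log z * Real.log N ^ 5 ≤ Real.log z ^ 4 * (120 * (8 / 3) ^ 5 * Real.exp (3 / 8 * Real.log N)) := by
            apply mul_le_mul h11 h10 (by positivity) (by positivity)
        _ = 120 * (8 / 3) ^ 5 * Real.exp (3 / 8 * Real.log N) * Real.log z ^ 4 := by ring
    have f5 : (1 / 2 : ℝ) ^ b0 * M ≤ 240 / lam ^ 5 * (Real.log z / Real.log N) ^ 5 * M :=
      mul_le_mul_of_nonneg_right f1 hM0.le
    have f6 : 0 ≤ (Cb + 1) * s1 ^ 5 * M * (Real.log z / Real.log N) ^ 5 := by positivity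
    have f7 : ((Cb + 1) * s1 ^ 5 + (240 / lam ^ 5 + 6 * K0 * (120 * (8 / 3) ^ 5) / c1)) * M *
        (Real.log z / Real.log N) ^ 5 = (Cb + 1) * s1 ^ 5 * M * (Real.log z / Real.log N) ^ 5 +
        (240 / lam ^ 5 * (Real.log z / Real.log N) ^ 5 * M +
        6 * K0 * (120 * (8 / 3) ^ 5) / c1 * M * (Real.log z / Real.log N) ^ 5) := by ring
    rw [f7]
    linarith

end Pool.Agent.W333.MH
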